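import Pool.Agent.LSC.Basic

set_option autoImplicit false

/-!
# Low sensitivity functions: counting lemmas for set systems
-/

namespace Pool.Agent.LSP

open Finset

/-- A sum of binomial coefficients. -/
theorem sum_choose_le {M m s : ℕ} (hm : 1 ≤ m) (hms : m ≤ 2 * s) (hM : m * M ≤ 8 * s ^ 2) :
    ∑ i ∈ range (m + 1), M.choose i ≤ 2 ^ (9 * s) := by
  have hs : 1 ≤ s := by omega
  have hsR : (0 : ℝ) < s := by exact_mod_cast hs
  have hmR : (0 : ℝ) < m := by exact_mod_cast hm
  set t : ℝ := m / (2 * s) with ht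
  have ht0 : 0 < t := by positivity
  have ht1 : t ≤ 1 := by
    rw [ht, div_le_one (by positivity)]
    exact_mod_cast hms
  -- the sum against the powers of `t`
  have h1 : (∑ i ∈ range (m + 1), (M.choose i : ℝ)) * t ^ m ≤ (1 + t) ^ M := by
    rw [sum_mul]
    have h2 : (1 + t) ^ M = ∑ i ∈ range (max m M + 1), (M.choose i : ℝ) * t ^ i := by
      rw [add_comm, add_pow]
      have h3 : ∀ i ∈ range (M + 1), t ^ i * 1 ^ (M - i) * (M.choose i : ℝ) =
          (M.choose i : ℝ) * t ^ i := fun i _ => by rw [one_pow, mul_one, mul_comm]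
      rw [sum_congr rfl h3]
      refine sum_subset (range_subset_range.2 (by omega)) ?_
      intro i _ hi
      rw [mem_range, not_lt] at hi
      rw [Nat.choose_eq_zero_of_lt (by omega), Nat.cast_zero, zero_mul]
    rw [h2]
    calc ∑ i ∈ range (m + 1), (M.choose i : ℝ) * t ^ m
        ≤ ∑ i ∈ range (m + 1), (M.choose i : ℝ) * t ^ i := by
          refine sum_le_sum fun i hi => ?_
          rw [mem_range] at hi
          exact mul_le_mul_of_nonneg_left (pow_le_pow_of_le_one ht0.le ht1 (by omega))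
            (Nat.cast_nonneg _)
      _ ≤ _ := by
          refine sum_le_sum_of_subset_of_nonneg (range_subset_range.2 (by omega)) ?_
          intro i _ _
          positivity
  have h2 : (1 + t) ^ M ≤ Real.exp (4 * s) := by
    calc (1 + t) ^ M ≤ Real.exp t ^ M := by
          refine pow_le_pow_left₀ (by positivity) ?_ _
          rw [add_comm]
          exact Real.add_one_le_exp t
      _ = Real.exp (t * M) := by rw [← Real.exp_nat_mul, mul_comm]
      _ ≤ Real.exp (4 * s) := by
          refine Real.exp_le_exp.2 ?_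
          rw [ht, div_mul_eq_mul_div, div_le_iff₀ (by positivity)]
          have : ((m * M : ℕ) : ℝ) ≤ ((8 * s ^ 2 : ℕ) : ℝ) := by exact_mod_cast hM
          push_cast at this
          nlinarith
  have h3 : (1 / t) ^ m ≤ Real.exp (2 * s) := by
    have h4 : 1 / t = 2 * s / m := by rw [ht]; field_simp
    have h5 : 1 / t ≤ Real.exp (2 * s / m - 1) := by
      rw [h4]
      have := Real.add_one_le_exp ((2 * s / m : ℝ) - 1)
      linarith
    calc (1 / t) ^ m ≤ Real.exp (2 * s / m - 1) ^ m := pow_le_pow_left₀ (by positivity) h5 _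
      _ = Real.exp (m * (2 * s / m - 1)) := by rw [← Real.exp_nat_mul]
      _ ≤ Real.exp (2 * s) := by
          refine Real.exp_le_exp.2 ?_
          have : (m : ℝ) * (2 * s / m - 1) = 2 * s - m := by field_simp
          rw [this]; linarith
  have h4 : (∑ i ∈ range (m + 1), (M.choose i : ℝ)) ≤ Real.exp (6 * s) := by
    have h5 : (∑ i ∈ range (m + 1), (M.choose i : ℝ)) =
        (∑ i ∈ range (m + 1), (M.choose i : ℝ)) * t ^ m * (1 / t) ^ m := by
      rw [mul_assoc, ← mul_pow, mul_one_div_cancel ht0.ne', one_pow, mul_one]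
    rw [h5]
    calc _ ≤ Real.exp (4 * s) * Real.exp (2 * s) :=
          mul_le_mul (h1.trans h2) h3 (by positivity) (Real.exp_pos _).le
      _ = Real.exp (6 * s) := by rw [← Real.exp_add]; ring_nf
  have h5 : Real.exp (6 * s) ≤ (2 : ℝ) ^ (9 * s) := by
    have h6 : Real.exp (6 * (s : ℝ)) = (Real.exp 1 ^ 6) ^ s := by
      rw [← pow_mul, ← Real.exp_nat_mul]
      push_cast
      ring_nf
    rw [h6, pow_mul]
    refine pow_le_pow_left₀ (by positivity) ?_ _
    have h7 : Real.exp 1 ≤ 2.72 := Real.exp_one_lt_d9.le.trans (by norm_num)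
    calc Real.exp 1 ^ 6 ≤ 2.72 ^ 6 := pow_le_pow_left₀ (Real.exp_pos 1).le h7 6
      _ ≤ 2 ^ 9 := by norm_num
  have h6 := h4.trans h5
  have h7 : ((∑ i ∈ range (m + 1), M.choose i : ℕ) : ℝ) ≤ ((2 ^ (9 * s) : ℕ) : ℝ) := by
    push_cast
    exact h6
  exact_mod_cast h7

variable {α : Type} [Fintype α] [DecidableEq α]

/-- the subsets of `C` with at most `m` elements -/
def small (C : Finset α) (m : ℕ) : Finset (Finset α) := C.powerset.filter fun S => S.card ≤ m

theorem mem_small {C S : Finset α} {m : ℕ} : S ∈ small C m ↔ S ⊆ C ∧ S.card ≤ m := by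
  rw [small, mem_filter, mem_powerset]

theorem card_small_le {C : Finset α} {m s : ℕ} (hm : 1 ≤ m) (hms : m ≤ 2 * s)
    (hC : m * C.card ≤ 8 * s ^ 2) : (small C m).card ≤ 2 ^ (9 * s) := by
  refine le_trans ?_ (sum_choose_le hm hms hC)
  have h1 : small C m ⊆ (range (m + 1)).biUnion fun i => C.powersetCard i := by
    intro S hS
    rw [mem_small] at hS
    rw [mem_biUnion]
    exact ⟨S.card, mem_range.2 (by omega), mem_powersetCard.2 ⟨hS.1, rfl⟩⟩
  calc (small C m).card ≤ _ := card_le_card h1
    _ ≤ ∑ i ∈ range (m + 1), (C.powersetCard i).card := card_biUnion_le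
    _ = _ := by simp only [card_powersetCard]

variable (N : α → Finset α)

/-- the number of `i` in `Y` with `j ∈ N i` -/
def dg (Y : Finset α) (j : α) : ℕ := (Y.filter fun i => j ∈ N i).card

/-- the elements which are in many of the sets `N i`, `i ∈ Y` -/
def con (Y : Finset α) (m : ℕ) : Finset α := univ.filter fun j => m ≤ 4 * dg N Y j

variable {N}

theorem dg_mono {Y Z : Finset α} (h : Y ⊆ Z) (j : α) : dg N Y j ≤ dg N Z j :=
  card_le_card (filter_subset_filter _ h)

theorem dg_union (Y Z : Finset α) (j : α) : dg N (Y ∪ Z) j ≤ dg N Y j + dg N Z j := by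
  unfold dg
  rw [filter_union]
  exact card_union_le _ _

theorem dg_le_card (Y : Finset α) (j : α) : dg N Y j ≤ Y.card := card_filter_le _ _

theorem card_con {s : ℕ} (hN : ∀ i, (N i).card ≤ s) (Y : Finset α) (m : ℕ) :
    m * (con N Y m).card ≤ 4 * (s * Y.card) := by
  have h1 : ∑ j : α, dg N Y j = ∑ i ∈ Y, (N i).card := by
    unfold dg
    simp only [card_filter]
    rw [sum_comm]
    refine sum_congr rfl fun i _ => ?_
    rw [← card_filter]
    congr 1
    ext j
    simp
  calc m * (con N Y m).card = ∑ _j ∈ con N Y m, m := by rw [sum_const, smul_eq_mul, mul_comm]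
    _ ≤ ∑ j ∈ con N Y m, 4 * dg N Y j := sum_le_sum fun j hj => (mem_filter.1 hj).2
    _ ≤ ∑ j : α, 4 * dg N Y j := sum_le_sum_of_subset (subset_univ _)
    _ = 4 * ∑ i ∈ Y, (N i).card := by rw [← mul_sum, h1]
    _ ≤ 4 * (s * Y.card) := by
      refine Nat.mul_le_mul_left _ ?_
      calc ∑ i ∈ Y, (N i).card ≤ ∑ _i ∈ Y, s := sum_le_sum fun i _ => hN i
        _ = s * Y.card := by rw [sum_const, smul_eq_mul, mul_comm]

/-- the condition on the third part of an exceptional set -/
def Rich (N : α → Finset α) (s : ℕ) (A : Finset α) (m : ℕ) (X : Finset α) : Prop :=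
  X.card = m ∧ (A ∪ X).card ≤ 2 * s ∧ ∀ j ∈ X, m ≤ dg N ((A ∪ X).erase j) j

theorem Rich.split {s m : ℕ} {A X : Finset α} (hm : 1 ≤ m) (h : Rich N s A m X) :
    ∃ p : α, ∃ G1 ⊆ N p, ∃ G2 ∈ small (con N A m) m, (A ∪ (G1 ∪ G2)).card ≤ 2 * s ∧
      ∃ R ∈ small (con N (A ∪ (G1 ∪ G2)) m) m, G1 ∪ G2 ∪ R = X := by
  obtain ⟨hX, hAX, hj⟩ := h
  set R0 := X.filter fun j => j ∉ con N A m with hR0
  -- most elements of `X` know the elements of `R0`
  have h1 : ∀ j ∈ R0, 4 * (X.filter fun p => j ∉ N p).card ≤ m := by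
    intro j hjR
    rw [hR0, mem_filter, con, mem_filter, not_and, not_le] at hjR
    have h2 := hjR.2 (mem_univ _)
    have h3 := hj j hjR.1
    have h4 : dg N ((A ∪ X).erase j) j ≤ dg N A j + dg N X j :=
      (dg_mono (erase_subset _ _) j).trans (dg_union _ _ _)
    have h5 : dg N X j + (X.filter fun p => j ∉ N p).card = X.card := by
      unfold dg
      exact card_filter_add_card_filter_not _
    omega
  have h2 : ∑ p ∈ X, 4 * (R0.filter fun j => j ∉ N p).card ≤ m * m := by
    have h3 : ∑ p ∈ X, (R0.filter fun j => j ∉ N p).card =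
        ∑ j ∈ R0, (X.filter fun p => j ∉ N p).card := by
      simp only [card_filter]
      exact sum_comm
    rw [← mul_sum, h3, mul_sum]
    calc ∑ j ∈ R0, 4 * (X.filter fun p => j ∉ N p).card ≤ ∑ _j ∈ R0, m := sum_le_sum h1
      _ = R0.card * m := by rw [sum_const, smul_eq_mul]
      _ ≤ m * m := by
        refine Nat.mul_le_mul_right _ ?_
        rw [← hX]
        exact card_filter_le _ _
  have h3 : ∃ p ∈ X, 4 * (R0.filter fun j => j ∉ N p).card ≤ m := by
    by_contra hcon
    push Not at hcon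
    have h4 : ∑ _p ∈ X, (m + 1) ≤ ∑ p ∈ X, 4 * (R0.filter fun j => j ∉ N p).card :=
      sum_le_sum fun p hp => hcon p hp
    rw [sum_const, smul_eq_mul, hX] at h4
    have h5 := h4.trans h2
    nlinarith
  obtain ⟨p, -, hp⟩ := h3
  set G1 := X.filter fun j => j ∈ N p with hG1
  set G2 := X.filter fun j => j ∈ con N A m with hG2
  set R := R0.filter fun j => j ∉ N p with hR
  have hunion : G1 ∪ G2 ∪ R = X := by
    ext j
    rw [mem_union, mem_union, hG1, hG2, hR, hR0, mem_filter, mem_filter, mem_filter, mem_filter]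
    constructor
    · rintro ((h4 | h4) | h4)
      · exact h4.1
      · exact h4.1
      · exact h4.1.1
    · intro h4
      by_cases h5 : j ∈ N p
      · exact Or.inl (Or.inl ⟨h4, h5⟩)
      · by_cases h6 : j ∈ con N A m
        · exact Or.inl (Or.inr ⟨h4, h6⟩)
        · exact Or.inr ⟨⟨h4, h6⟩, h5⟩
  have hRX : R ⊆ X := by rw [← hunion]; exact subset_union_right
  have hGX : G1 ∪ G2 ⊆ X := by rw [← hunion]; exact subset_union_left
  refine ⟨p, G1, fun j hj => (mem_filter.1 hj).2, G2, ?_, ?_, R, ?_, hunion⟩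
  · rw [mem_small]
    exact ⟨fun j hj => (mem_filter.1 hj).2, hX ▸ card_filter_le _ _⟩
  · exact (card_le_card (union_subset_union (Subset.refl _) hGX)).trans hAX
  · rw [mem_small]
    refine ⟨?_, hX ▸ card_le_card hRX⟩
    intro j hjR
    rw [con, mem_filter]
    refine ⟨mem_univ _, ?_⟩
    have h4 := hj j (hRX hjR)
    have h5 : dg N ((A ∪ X).erase j) j ≤ dg N (A ∪ (G1 ∪ G2)) j + R.card := by
      refine (dg_mono (erase_subset _ _) j).trans ?_
      have h6 : A ∪ X = (A ∪ (G1 ∪ G2)) ∪ R := by rw [union_assoc, hunion]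
      rw [h6]
      exact (dg_union _ _ _).trans (Nat.add_le_add_left (dg_le_card _ _) _)
    omega

theorem card_rich {s m : ℕ} (hN : ∀ i, (N i).card ≤ s) (A : Finset α) (hm : m ≤ 2 * s)
    [DecidablePred (Rich N s A m)] (hα : 1 ≤ Fintype.card α) :
    (univ.filter fun X => Rich N s A m X).card ≤
      Fintype.card α * (2 ^ s * (2 ^ (9 * s) * 2 ^ (9 * s))) := by
  rcases Nat.eq_zero_or_pos m with rfl | hm1
  · have h1 : (univ.filter fun X => Rich N s A 0 X) ⊆ {∅} := by
      intro X hX
      rw [mem_filter] at hX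
      rw [mem_singleton]
      exact card_eq_zero.1 hX.2.1
    refine (card_le_card h1).trans ?_
    rw [card_singleton]
    exact Nat.succ_le_of_lt (by positivity)
  · have hsub : (univ.filter fun X => Rich N s A m X) ⊆
        (univ : Finset α).biUnion fun p => (N p).powerset.biUnion fun G1 =>
          if (A.card ≤ 2 * s) then (small (con N A m) m).biUnion fun G2 =>
            if (A ∪ (G1 ∪ G2)).card ≤ 2 * s then
              (small (con N (A ∪ (G1 ∪ G2)) m) m).image (fun R => G1 ∪ G2 ∪ R)
            else ∅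
          else ∅ := by
      intro X hX
      rw [mem_filter] at hX
      obtain ⟨p, G1, hG1, G2, hG2, hc, R, hR, hu⟩ := hX.2.split hm1
      have hA : A.card ≤ 2 * s := (card_le_card subset_union_left).trans hX.2.2.1
      rw [mem_biUnion]
      refine ⟨p, mem_univ _, ?_⟩
      rw [mem_biUnion]
      refine ⟨G1, mem_powerset.2 hG1, ?_⟩
      rw [if_pos hA, mem_biUnion]
      refine ⟨G2, hG2, ?_⟩
      rw [if_pos hc, mem_image]
      exact ⟨R, hR, hu⟩
    have hK : ∀ Y : Finset α, Y.card ≤ 2 * s → (small (con N Y m) m).card ≤ 2 ^ (9 * s) := by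
      intro Y hY
      refine card_small_le hm1 hm ?_
      refine (card_con hN Y m).trans ?_
      calc 4 * (s * Y.card) ≤ 4 * (s * (2 * s)) :=
            Nat.mul_le_mul_left _ (Nat.mul_le_mul_left _ hY)
        _ = 8 * s ^ 2 := by ring
    refine (card_le_card hsub).trans ?_
    refine card_biUnion_le.trans ?_
    have h1 : ∀ p ∈ (univ : Finset α), ((N p).powerset.biUnion fun G1 =>
          if (A.card ≤ 2 * s) then (small (con N A m) m).biUnion fun G2 =>
            if (A ∪ (G1 ∪ G2)).card ≤ 2 * s then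
              (small (con N (A ∪ (G1 ∪ G2)) m) m).image (fun R => G1 ∪ G2 ∪ R)
            else ∅
          else ∅).card ≤ 2 ^ s * (2 ^ (9 * s) * 2 ^ (9 * s)) := by
      intro p _
      refine card_biUnion_le.trans ?_
      have h2 : ∀ G1 ∈ (N p).powerset, (if (A.card ≤ 2 * s) then
          (small (con N A m) m).biUnion fun G2 =>
            if (A ∪ (G1 ∪ G2)).card ≤ 2 * s then
              (small (con N (A ∪ (G1 ∪ G2)) m) m).image (fun R => G1 ∪ G2 ∪ R)
            else ∅
          else ∅).card ≤ 2 ^ (9 * s) * 2 ^ (9 * s) := by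
        intro G1 _
        split_ifs with hA
        · refine card_biUnion_le.trans ?_
          have h3 : ∀ G2 ∈ small (con N A m) m, (if (A ∪ (G1 ∪ G2)).card ≤ 2 * s then
              (small (con N (A ∪ (G1 ∪ G2)) m) m).image (fun R => G1 ∪ G2 ∪ R)
              else ∅).card ≤ 2 ^ (9 * s) := by
            intro G2 _
            split_ifs with hc
            · exact card_image_le.trans (hK _ hc)
            · simp
          refine (sum_le_sum h3).trans ?_
          rw [sum_const, smul_eq_mul]
          exact Nat.mul_le_mul_right _ (hK A hA)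
        · simp
      refine (sum_le_sum h2).trans ?_
      rw [sum_const, smul_eq_mul, card_powerset]
      exact Nat.mul_le_mul_right _ (Nat.pow_le_pow_right (by norm_num) (hN p))
    refine (sum_le_sum h1).trans ?_
    rw [sum_const, smul_eq_mul, card_univ]

end Pool.Agent.LSP
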