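import Pool.Agent.LSP.Count

set_option autoImplicit false

/-!
# Low sensitivity functions: the second order predictor
-/

namespace Pool.Agent.LSP

open Finset Pool.Agent.LSC

variable {n : ℕ}

/-- the sensitive coordinates of `x` -/
def Se (f : Cube n → Bool) (x : Cube n) : Finset (Fin n) := univ.filter fun i => f (flip x i) ≠ f x

theorem mem_Se {f : Cube n → Bool} {x : Cube n} {i : Fin n} :
    i ∈ Se f x ↔ f (flip x i) ≠ f x := by simp [Se]

theorem flip_comm (x : Cube n) (i j : Fin n) : flip (flip x i) j = flip (flip x j) i := by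
  rw [flip_eq, flip_eq, flip_eq, flip_eq, tog_tog, tog_tog, symmDiff_comm]

/-- the number of the `l` in `T` such that `j` is sensitive after flipping `l` -/
def xc (f : Cube n → Bool) (z : Cube n) (T : Finset (Fin n)) (j : Fin n) : ℕ :=
  dg (fun l => Se f (flip z l)) (T.erase j) j

/-- the prediction at `z` can be wrong -/
def Exc (f : Cube n → Bool) (z : Cube n) (T : Finset (Fin n)) : Prop :=
  ∃ i ∈ T, i ∈ Se f z ∧ ∀ j ∈ T, xc f z T i ≤ xc f z T j

/-- the structure of the exceptional sets -/
theorem Exc.split {s : ℕ} {f : Cube n → Bool} {z : Cube n} {T : Finset (Fin n)}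
    (hT : T.card ≤ 2 * s) (h : Exc f z T) :
    ∃ i ∈ Se f z, ∃ W ⊆ Se f z ∪ Se f (flip z i), ∃ m ≤ 2 * s, ∃ X : Finset (Fin n),
      Rich (fun l => Se f (flip z l)) s (insert i W) m X ∧ insert i W ∪ X = T := by
  classical
  obtain ⟨i, hiT, hi, hmin⟩ := h
  set X := (T.erase i).filter fun l => i ∈ Se f (flip z l) with hX
  set W := (T.erase i).filter fun l => i ∉ Se f (flip z l) with hW
  have hu : insert i W ∪ X = T := by
    ext l
    rw [mem_union, mem_insert, hX, hW, mem_filter, mem_filter, mem_erase]
    constructor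
    · rintro ((rfl | h1) | h1)
      · exact hiT
      · exact h1.1.2
      · exact h1.1.2
    · intro hl
      by_cases h1 : l = i
      · exact Or.inl (Or.inl h1)
      · by_cases h2 : i ∈ Se f (flip z l)
        · exact Or.inr ⟨⟨h1, hl⟩, h2⟩
        · exact Or.inl (Or.inr ⟨⟨h1, hl⟩, h2⟩)
  refine ⟨i, hi, W, ?_, X.card, ?_, X, ⟨rfl, ?_, ?_⟩, hu⟩
  · intro l hl
    rw [hW, mem_filter, mem_erase, mem_Se, not_not] at hl
    rw [mem_Se] at hi
    rw [mem_union, mem_Se, mem_Se]
    by_contra hcon
    push Not at hcon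
    apply hi
    rw [← hcon.2, flip_comm, hl.2, hcon.1]
  · exact (card_le_card (by rw [← hu]; exact subset_union_right)).trans hT
  · rw [hu]; exact hT
  · intro j hj
    rw [hu]
    have h1 : j ∈ T := by rw [← hu]; exact mem_union_right _ hj
    exact hmin j h1

theorem card_exc {s : ℕ} {f : Cube n → Bool} (hf : ∀ x, sensAt f x ≤ s) (z : Cube n)
    [DecidablePred fun T : Finset (Fin n) => T.card ≤ 2 * s ∧ Exc f z T] :
    (univ.filter fun T : Finset (Fin n) => T.card ≤ 2 * s ∧ Exc f z T).card ≤
      n * 2 ^ (24 * s) := by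
  classical
  rcases Nat.eq_zero_or_pos n with rfl | hn
  · refine le_trans (le_of_eq ?_) (Nat.zero_le _)
    rw [card_eq_zero, filter_eq_empty_iff]
    rintro T - ⟨-, i, -⟩
    exact i.elim0
  · have hSe : ∀ x, (Se f x).card ≤ s := hf
    set N : Fin n → Finset (Fin n) := fun l => Se f (flip z l) with hN
    have hsub : (univ.filter fun T : Finset (Fin n) => T.card ≤ 2 * s ∧ Exc f z T) ⊆
        (Se f z).biUnion fun i => (Se f z ∪ Se f (flip z i)).powerset.biUnion fun W =>
          (range (2 * s + 1)).biUnion fun m =>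
            (univ.filter fun X => Rich N s (insert i W) m X).image fun X => insert i W ∪ X := by
      intro T hT
      rw [mem_filter] at hT
      obtain ⟨i, hi, W, hW, m, hm, X, hX, hu⟩ := hT.2.2.split hT.2.1
      rw [mem_biUnion]
      refine ⟨i, hi, ?_⟩
      rw [mem_biUnion]
      refine ⟨W, mem_powerset.2 hW, ?_⟩
      rw [mem_biUnion]
      refine ⟨m, mem_range.2 (by omega), ?_⟩
      rw [mem_image]
      exact ⟨X, mem_filter.2 ⟨mem_univ _, hX⟩, hu⟩
    have hcard : ∀ (i : Fin n) (W : Finset (Fin n)), ∀ m ∈ range (2 * s + 1),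
        ((univ.filter fun X => Rich N s (insert i W) m X).image fun X => insert i W ∪ X).card ≤
          n * (2 ^ s * (2 ^ (9 * s) * 2 ^ (9 * s))) := by
      intro i W m hm
      rw [mem_range] at hm
      refine card_image_le.trans ?_
      have h1 := card_rich (N := N) (s := s) (m := m) (fun l => hSe _) (insert i W) (by omega)
        (by rw [Fintype.card_fin]; omega)
      rwa [Fintype.card_fin] at h1
    have h1 : ∀ i ∈ Se f z, ((Se f z ∪ Se f (flip z i)).powerset.biUnion fun W =>
          (range (2 * s + 1)).biUnion fun m =>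
            (univ.filter fun X => Rich N s (insert i W) m X).image
              fun X => insert i W ∪ X).card ≤
        2 ^ (2 * s) * ((2 * s + 1) * (n * (2 ^ s * (2 ^ (9 * s) * 2 ^ (9 * s))))) := by
      intro i _
      refine card_biUnion_le.trans ?_
      have h2 : ∀ W ∈ (Se f z ∪ Se f (flip z i)).powerset,
          ((range (2 * s + 1)).biUnion fun m =>
            (univ.filter fun X => Rich N s (insert i W) m X).image
              fun X => insert i W ∪ X).card ≤
          (2 * s + 1) * (n * (2 ^ s * (2 ^ (9 * s) * 2 ^ (9 * s)))) := by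
        intro W _
        refine card_biUnion_le.trans ?_
        refine (sum_le_sum (hcard i W)).trans ?_
        rw [sum_const, smul_eq_mul, card_range]
      refine (sum_le_sum h2).trans ?_
      rw [sum_const, smul_eq_mul, card_powerset]
      refine Nat.mul_le_mul_right _ (Nat.pow_le_pow_right (by norm_num) ?_)
      refine (card_union_le _ _).trans ?_
      have := hSe z
      have := hSe (flip z i)
      omega
    refine (card_le_card hsub).trans ?_
    refine card_biUnion_le.trans ?_
    refine (sum_le_sum h1).trans ?_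
    rw [sum_const, smul_eq_mul]
    have h3 : (Se f z).card ≤ 2 ^ s := (hSe z).trans Nat.lt_two_pow_self.le
    have h4 : 2 * s + 1 ≤ 2 ^ (2 * s) := Nat.lt_two_pow_self
    calc (Se f z).card * (2 ^ (2 * s) * ((2 * s + 1) *
          (n * (2 ^ s * (2 ^ (9 * s) * 2 ^ (9 * s))))))
        ≤ 2 ^ s * (2 ^ (2 * s) * (2 ^ (2 * s) *
          (n * (2 ^ s * (2 ^ (9 * s) * 2 ^ (9 * s)))))) := by
          refine Nat.mul_le_mul h3 (Nat.mul_le_mul_left _ (Nat.mul_le_mul_right _ h4))
      _ = n * 2 ^ (24 * s) := by
          have : (2 : ℕ) ^ (24 * s) =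
              2 ^ s * (2 ^ (2 * s) * (2 ^ (2 * s) * (2 ^ s * (2 ^ (9 * s) * 2 ^ (9 * s))))) := by
            rw [← pow_add, ← pow_add, ← pow_add, ← pow_add, ← pow_add]
            congr 1
            ring
          rw [this]
          ring

/-- averaging over the center -/
theorem exists_center {k M : ℕ} {P : Cube n → Finset (Fin n) → Prop}
    (hP : ∀ (x : Cube n) (E : Finset (Finset (Fin n))),
      (∀ T ∈ E, T.card ≤ k ∧ P x T) → E.card ≤ M) :
    ∃ c : Cube n, ∃ E : Finset (Finset (Fin n)), (∀ S, S ∈ E ↔ S.card ≤ k ∧ P (tog c S) S) ∧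
      E.card ≤ M := by
  classical
  by_contra hcon
  push Not at hcon
  have h1 : ∀ c : Cube n, M + 1 ≤
      (univ.filter fun S : Finset (Fin n) => S.card ≤ k ∧ P (tog c S) S).card := fun c =>
    hcon c _ (fun S => by simp)
  have h2 : ∑ c : Cube n, (univ.filter fun S : Finset (Fin n) =>
      S.card ≤ k ∧ P (tog c S) S).card =
      ∑ x : Cube n, (univ.filter fun S : Finset (Fin n) => S.card ≤ k ∧ P x S).card := by
    simp only [card_eq_sum_ones, sum_filter]
    rw [sum_comm, sum_comm (s := univ (α := Cube n))]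
    refine sum_congr rfl fun S _ => ?_
    refine sum_nbij' (fun c => tog c S) (fun x => tog x S) (fun _ _ => mem_univ _)
      (fun _ _ => mem_univ _) (fun c _ => tog_self c S) (fun c _ => tog_self c S) ?_
    intro c _
    rfl
  have h3 : ∑ x : Cube n, (univ.filter fun S : Finset (Fin n) => S.card ≤ k ∧ P x S).card ≤
      ∑ _x : Cube n, M := by
    refine sum_le_sum fun x _ => hP x _ fun T hT => ?_
    exact (mem_filter.1 hT).2
  have h4 : ∑ _x : Cube n, (M + 1) ≤ ∑ _x : Cube n, M := by
    calc _ ≤ _ := sum_le_sum fun c _ => h1 c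
      _ = _ := h2
      _ ≤ _ := h3
  rw [sum_const, sum_const, smul_eq_mul, smul_eq_mul] at h4
  have h5 : 0 < (univ : Finset (Cube n)).card := card_pos.2 univ_nonempty
  exact absurd (Nat.le_of_mul_le_mul_left h4 h5) (by omega)

theorem flip_tog {c : Cube n} {T : Finset (Fin n)} {i : Fin n} (hi : i ∈ T) :
    flip (tog c T) i = tog c (T.erase i) := by
  rw [flip_eq, tog_sdiff c (singleton_subset_iff.2 hi), sdiff_singleton_eq_erase]

/-- functions which agree on smaller sets have the same counts -/
theorem xc_congr {f g : Cube n → Bool} {c : Cube n} {T : Finset (Fin n)}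
    (h : ∀ S : Finset (Fin n), S.card < T.card → f (tog c S) = g (tog c S)) {j : Fin n}
    (hj : j ∈ T) : xc f (tog c T) T j = xc g (tog c T) T j := by
  unfold xc dg
  congr 1
  refine filter_congr fun l hl => ?_
  rw [mem_erase] at hl
  have hl1 : l ∈ T := hl.2
  have hj1 : j ∈ T.erase l := mem_erase.2 ⟨fun h => hl.1 h.symm, hj⟩
  have h1 : (T.erase l).card < T.card := card_erase_lt_of_mem hl1
  have h2 : ((T.erase l).erase j).card < T.card := (card_erase_lt_of_mem hj1).trans h1
  rw [mem_Se, mem_Se, flip_tog hl1, flip_tog hj1, h _ h1, h _ h2]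

theorem low_card' (n s : ℕ) :
    {f : Cube n → Bool | ∀ x, sensAt f x ≤ s}.ncard ≤
      2 ^ n * (2 * (n + 1) ^ (2 * s) + 1) ^ (n * 2 ^ (24 * s) + 1) := by
  classical
  set A := n * 2 ^ (24 * s) + 1 with hA
  let B := {S : Finset (Fin n) // S.card ≤ 2 * s}
  have hB : Fintype.card B ≤ (n + 1) ^ (2 * s) := by
    have h1 := card_small (α := Fin n) (2 * s)
    rw [Fintype.card_fin] at h1
    rw [Fintype.card_subtype]
    exact h1
  have hex : ∀ f : Cube n → Bool, ∃ (c : Cube n) (E : Finset (Finset (Fin n))),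
      (∀ x, sensAt f x ≤ s) → (∀ S, S ∈ E ↔ S.card ≤ 2 * s ∧ (S = ∅ ∨ Exc f (tog c S) S)) ∧
        E.card ≤ A := by
    intro f
    by_cases hf : ∀ x, sensAt f x ≤ s
    · obtain ⟨c, E, h1, h2⟩ := exists_center (n := n) (k := 2 * s) (M := A)
        (P := fun x T => T = ∅ ∨ Exc f x T) (by
          intro x E hE
          have h1 : E ⊆ insert ∅ (univ.filter fun T : Finset (Fin n) =>
              T.card ≤ 2 * s ∧ Exc f x T) := by
            intro T hT
            rw [mem_insert, mem_filter]
            rcases (hE T hT).2 with h2 | h2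
            · exact Or.inl h2
            · exact Or.inr ⟨mem_univ _, (hE T hT).1, h2⟩
          refine (card_le_card h1).trans ((card_insert_le _ _).trans ?_)
          exact Nat.add_le_add_right (card_exc hf x) 1)
      exact ⟨c, E, fun _ => ⟨h1, h2⟩⟩
    · exact ⟨fun _ => false, ∅, fun h => absurd h hf⟩
  choose c E hcE using hex
  let code : (Cube n → Bool) → Cube n × Finset (B × Bool) := fun f =>
    (c f, univ.filter fun p : B × Bool => p.1.1 ∈ E f ∧ f (tog (c f) p.1.1) = p.2)
  rw [Set.ncard_eq_toFinset_card']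
  have hmaps : ∀ f ∈ {f : Cube n → Bool | ∀ x, sensAt f x ≤ s}.toFinset,
      code f ∈ (univ : Finset (Cube n)) ×ˢ
        (univ.filter fun t : Finset (B × Bool) => t.card ≤ A) := by
    intro f hf
    rw [Set.mem_toFinset, Set.mem_ofPred_eq] at hf
    rw [mem_product, mem_filter]
    refine ⟨mem_univ _, mem_univ _, ?_⟩
    refine le_trans ?_ (hcE f hf).2
    refine card_le_card_of_injOn (fun p => p.1.1) ?_ ?_
    · intro p hp
      exact (mem_filter.1 (mem_coe.1 hp)).2.1
    · intro p hp q hq hpq
      have hp' := (mem_filter.1 (mem_coe.1 hp)).2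
      have hq' := (mem_filter.1 (mem_coe.1 hq)).2
      have hpq' : p.1.1 = q.1.1 := hpq
      refine Prod.ext (Subtype.ext hpq') ?_
      rw [← hp'.2, ← hq'.2, hpq']
  have hinj : Set.InjOn code {f : Cube n → Bool | ∀ x, sensAt f x ≤ s}.toFinset := by
    intro f hf g hg hfg
    rw [mem_coe, Set.mem_toFinset, Set.mem_ofPred_eq] at hf hg
    have hc : c f = c g := congrArg Prod.fst hfg
    have ht := congrArg Prod.snd hfg
    simp only [code] at ht
    have hmem : ∀ S : Finset (Fin n), S.card ≤ 2 * s → S ∈ E f →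
        f (tog (c f) S) = g (tog (c f) S) := by
      intro S hS hSE
      have h1 : ((⟨S, hS⟩ : B), f (tog (c f) S)) ∈
          univ.filter fun p : B × Bool => p.1.1 ∈ E f ∧ f (tog (c f) p.1.1) = p.2 := by
        simp [hSE]
      rw [ht, mem_filter] at h1
      rw [hc]
      rw [hc] at h1
      exact h1.2.2.symm
    have hmem' : ∀ S : Finset (Fin n), S.card ≤ 2 * s → S ∈ E g →
        f (tog (c f) S) = g (tog (c f) S) := by
      intro S hS hSE
      have h1 : ((⟨S, hS⟩ : B), g (tog (c g) S)) ∈
          univ.filter fun p : B × Bool => p.1.1 ∈ E g ∧ g (tog (c g) p.1.1) = p.2 := by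
        simp [hSE]
      rw [← ht, mem_filter] at h1
      rw [← hc] at h1
      exact h1.2.2
    have key : ∀ k : ℕ, ∀ T : Finset (Fin n), T.card = k → k ≤ 2 * s →
        f (tog (c f) T) = g (tog (c f) T) := by
      intro k
      induction k using Nat.strong_induction_on with
      | _ k ih =>
        intro T hT hk
        by_cases hTf : T ∈ E f
        · exact hmem T (hT ▸ hk) hTf
        · by_cases hTg : T ∈ E g
          · exact hmem' T (hT ▸ hk) hTg
          · have h1 : ¬ (T = ∅ ∨ Exc f (tog (c f) T) T) := fun h =>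
              hTf (((hcE f hf).1 T).2 ⟨hT ▸ hk, h⟩)
            have h2 : ¬ (T = ∅ ∨ Exc g (tog (c f) T) T) := fun h =>
              hTg (((hcE g hg).1 T).2 ⟨hT ▸ hk, by rw [← hc]; exact h⟩)
            rw [not_or] at h1 h2
            have hlow : ∀ S : Finset (Fin n), S.card < T.card →
                f (tog (c f) S) = g (tog (c f) S) := fun S hS =>
              ih S.card (hT ▸ hS) S rfl (by omega)
            obtain ⟨i, hi, hmin⟩ := exists_min_image T (xc f (tog (c f) T) T)
              (nonempty_iff_ne_empty.2 h1.1)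
            have h3 : i ∉ Se f (tog (c f) T) := fun h => h1.2 ⟨i, hi, h, hmin⟩
            have h4 : i ∉ Se g (tog (c f) T) := fun h => h2.2 ⟨i, hi, h, fun j hj => by
              rw [← xc_congr hlow hi, ← xc_congr hlow hj]
              exact hmin j hj⟩
            rw [mem_Se, not_not, flip_tog hi] at h3 h4
            rw [← h3, ← h4]
            exact hlow _ (card_erase_lt_of_mem hi)
    exact eq_of_ball hf hg (c f) fun Z hZ => key Z.card Z rfl hZ
  calc _ ≤ _ := card_le_card_of_injOn code hmaps hinj
    _ = 2 ^ n * (univ.filter fun t : Finset (B × Bool) => t.card ≤ A).card := by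
      rw [card_product, card_univ, Fintype.card_fun, Fintype.card_bool,
        Fintype.card_fin]
    _ ≤ 2 ^ n * (2 * (n + 1) ^ (2 * s) + 1) ^ A := by
      refine Nat.mul_le_mul_left _ ?_
      refine (card_small (α := B × Bool) A).trans ?_
      refine Nat.pow_le_pow_left ?_ _
      rw [Fintype.card_prod, Fintype.card_bool]
      omega

end Pool.Agent.LSP
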